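import Pool.Agent.Helper15.BB.All

/-!
The conjecture of Fliess (1970) is false for every alphabet with at least four letters, and no test
with slices by boundedly many blocks can replace it.  The definitions `comm` (commutative closure)
and `blocks` (the language `b_1^* ... b_m^*`) are in `Pool/Agent/Helper22/FL/Defs.lean`.
-/

namespace Pool.Agent.Results.MP_434a84_lc.BlockBarrier

open Pool.Agent.Helper22.FL

/-- For every `n ≥ 4` there is a context-free language `L`, contained in
`a_1^* a_2^* ... a_n^*`, whose commutative closure is not context-free, although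
`comm L ∩ b_1^* ... b_m^*` is context-free for every `m ≤ 2 n - 3` and all letters
`b_1, ..., b_m`. -/
theorem result (n : ℕ) (hn : 4 ≤ n) : ∃ L : Language (Fin n),
    L.IsContextFree ∧ L ≤ blocks (id : Fin n → Fin n) ∧
    (∀ m : ℕ, m ≤ 2 * n - 3 → ∀ b : Fin m → Fin n, (comm L ⊓ blocks b).IsContextFree) ∧
    ¬ (comm L).IsContextFree :=
  Pool.Agent.Helper15.BB.all n hn

end Pool.Agent.Results.MP_434a84_lc.BlockBarrier
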