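import Pool.Agent.Helper22.CS.Final

/-!
An explicit criterion for the context-freeness of the commutative closure of a language whose
Parikh image is a finite union of linear sets with a common set of periods.
The definitions `parikh`, `periodSet`, `letters`, `IsFace`, `Splits`, `Cuttable` are in
`Pool/Agent/Helper22/CS/Defs.lean`, `comm` is in `Pool/Agent/Helper22/FL/Defs.lean`.
-/

namespace Pool.Agent.Results.MP_434a84_lc.CommonPeriods

open Pool.Agent.Helper22.FL Pool.Agent.Helper22.CS

/-- Let the Parikh image of the language `L` be the union of the linear sets `L(c,P)`, `c ∈ F`,
where `F` and `P` are finite and `F` is nonempty. The commutative closure of `L` is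
context-free if and only if every face of `P` which contains a nonzero vector splits. -/
theorem result (n : ℕ) (F P : Finset (Fin n → ℕ)) (hF : F.Nonempty) (L : Language (Fin n))
    (hL : parikh '' L = periodSet F P) : (comm L).IsContextFree ↔ Cuttable P :=
  main F P hF L hL

end Pool.Agent.Results.MP_434a84_lc.CommonPeriods
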