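import Pool.Agent.Helper31.TW.All

/-!
Characterisation of the languages `L` (context-free, or only with a semilinear set of Parikh vectors) whose
commutative closure and its complement are both context-free.  The definitions `comm`, `parikh`, `threeStar`,
`IsCut`, `FinCut`, `clip`, `Cross`, `NonCrossing` are in `Pool/Agent/Helper22/FL/Defs.lean`,
`Pool/Agent/Helper22/CS/Defs.lean`, `Pool/Agent/Helper15/TS/Defs.lean` and `Pool/Agent/Helper31/TW/Defs.lean`.
-/

set_option autoImplicit false

namespace Pool.Agent.Results.MP_434a84_lc.NonCrossingWalls

open Pool.Agent.Helper22.FL Pool.Agent.Helper22.CS Pool.Agent.Helper15.TS Pool.Agent.Helper31.TW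

/-- For a context-free language `L` (or any `L` whose set of Parikh vectors is semilinear) the following are
equivalent: the commutative closure and its complement are both context-free; all their slices by the languages
`z u^* v^* w^*` are context-free; the set of Parikh vectors and its complement are finite unions of cut sets; the
set of Parikh vectors has non-crossing walls. -/
theorem result {n : ℕ} (L : Language (Fin n))
    (hL : L.IsContextFree ∨ IsSemilinearSet (parikh '' L)) :
    List.TFAE [(comm L).IsContextFree ∧ ((comm L)ᶜ).IsContextFree,
      ∀ z u v w : List (Fin n), u ≠ [] → v ≠ [] → w ≠ [] →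
        (comm L ⊓ threeStar z u v w).IsContextFree ∧
          ((comm L)ᶜ ⊓ threeStar z u v w).IsContextFree,
      FinCut (parikh '' L) ∧ FinCut (parikh '' L)ᶜ,
      NonCrossing (parikh '' L)] :=
  all L hL

end Pool.Agent.Results.MP_434a84_lc.NonCrossingWalls
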