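import Pool.Agent.Helper15.TS.All

/-!
Context-freeness of commutative closures: complete criterion for languages with a slim set of
Parikh vectors.  The definitions `lin`, `lettersOf`, `toQ`, `Slim`, `sec`, `IsTwoLetter`,
`IsSection`, `threeStar` are in `Pool/Agent/Helper15/TS/Defs.lean`; `parikh` and `letters` are in
`Pool/Agent/Helper22/CS/Defs.lean`; `comm` is in `Pool/Agent/Helper22/FL/Defs.lean`.
-/

namespace Pool.Agent.Results.MP_434a84_lc.SlimCriterion

open Pool.Agent.Helper22.FL Pool.Agent.Helper22.CS Pool.Agent.Helper15.TS

/-- For a language `L` over `n` letters whose set of Parikh vectors is semilinear and slim, the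
following are equivalent: `comm L` is context-free; `comm L ∩ z u^* v^* w^*` is
context-free for all words `z` and all nonempty words `u`, `v`, `w`; the set of Parikh vectors of
`L` is a finite union of linear sets with periods in at most two letters and of full sections. -/
theorem result {n : ℕ} (L : Language (Fin n)) (hL : IsSemilinearSet (parikh '' L))
    (hslim : Slim (parikh '' L)) :
    List.TFAE [(comm L).IsContextFree,
      ∀ z u v w : List (Fin n), u ≠ [] → v ≠ [] → w ≠ [] →
        (comm L ⊓ threeStar z u v w).IsContextFree,
      ∃ 𝒟 : Set (Set (Fin n → ℕ)), 𝒟.Finite ∧ parikh '' L = ⋃₀ 𝒟 ∧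
        ∀ D ∈ 𝒟, IsTwoLetter D ∨ IsSection D] :=
  all L hL hslim

end Pool.Agent.Results.MP_434a84_lc.SlimCriterion
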